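import Pool.Agent.P8H64.GP.Stm

/-!
# Project GP, package BDD: the integrand is bounded
-/

set_option autoImplicit false

namespace Pool.Agent.P8H26.GP

open MeasureTheory ProbabilityTheory
open Pool.Agent.P8H64.GP

/-- `t ^ s e ^ (-c t)` is bounded -/
lemma rpow_exp_le {s t c : ℝ} (n : ℕ) (hs : 0 ≤ s) (hn : s ≤ n) (ht : 0 ≤ t) (hc : 0 < c) :
    t ^ s * Real.exp (-c * t) ≤ 1 + (n.factorial : ℝ) / c ^ n := by
  have hexp : Real.exp (-c * t) ≤ 1 := by
    rw [Real.exp_le_one_iff]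
    nlinarith
  have hexp0 : 0 < Real.exp (-c * t) := Real.exp_pos _
  have hfac : (0 : ℝ) < (n.factorial : ℝ) := by exact_mod_cast n.factorial_pos
  have hcn : 0 < c ^ n := pow_pos hc n
  have h1 : t ^ s ≤ 1 + t ^ n := by
    rcases le_total t 1 with h | h
    · have h2 : t ^ s ≤ 1 := Real.rpow_le_one ht h hs
      have h3 : 0 ≤ t ^ n := pow_nonneg ht n
      linarith
    · have h2 : t ^ s ≤ t ^ (n : ℝ) := Real.rpow_le_rpow_of_exponent_le h hn
      rw [Real.rpow_natCast] at h2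
      linarith
  have h2 : t ^ n * Real.exp (-c * t) ≤ (n.factorial : ℝ) / c ^ n := by
    have h3 := Real.pow_div_factorial_le_exp (c * t) (by positivity) n
    rw [div_le_iff₀ hfac, mul_pow] at h3
    rw [le_div_iff₀ hcn]
    have h4 : Real.exp (c * t) * Real.exp (-c * t) = 1 := by
      rw [← Real.exp_add]
      ring_nf
      exact Real.exp_zero
    calc t ^ n * Real.exp (-c * t) * c ^ n = (c ^ n * t ^ n) * Real.exp (-c * t) := by ring
      _ ≤ (Real.exp (c * t) * (n.factorial : ℝ)) * Real.exp (-c * t) :=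
          mul_le_mul_of_nonneg_right h3 hexp0.le
      _ = (n.factorial : ℝ) * (Real.exp (c * t) * Real.exp (-c * t)) := by ring
      _ = (n.factorial : ℝ) := by rw [h4, mul_one]
  calc t ^ s * Real.exp (-c * t) ≤ (1 + t ^ n) * Real.exp (-c * t) :=
        mul_le_mul_of_nonneg_right h1 hexp0.le
    _ = Real.exp (-c * t) + t ^ n * Real.exp (-c * t) := by ring
    _ ≤ 1 + (n.factorial : ℝ) / c ^ n := add_le_add hexp h2

theorem bdd : S_BDD := by
  intro r d U hU ν hν c hc
  obtain ⟨n, hn⟩ := exists_nat_ge (∑ i, ν i)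
  have hcont : Continuous (fun v : Fin r → ℝ =>
      (∏ i, |∑ k, U i k * v k| ^ (2 * ν i)) * Real.exp (-c * ∑ k, v k ^ 2)) := by
    refine Continuous.mul (continuous_finsetProd _ fun i _ => ?_) (by fun_prop)
    refine Continuous.rpow_const (by fun_prop) fun v => Or.inr ?_
    have := hν i
    positivity
  refine Integrable.of_bound hcont.aestronglyMeasurable (1 + (n.factorial : ℝ) / c ^ n)
    (ae_of_all _ fun v => ?_)
  have ht : 0 ≤ ∑ k, v k ^ 2 := Finset.sum_nonneg fun k _ => sq_nonneg _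
  have hprod0 : 0 ≤ ∏ i, |∑ k, U i k * v k| ^ (2 * ν i) :=
    Finset.prod_nonneg fun i _ => Real.rpow_nonneg (abs_nonneg _) _
  rw [Real.norm_of_nonneg (mul_nonneg hprod0 (Real.exp_pos _).le)]
  have hprod : ∏ i, |∑ k, U i k * v k| ^ (2 * ν i) ≤ (∑ k, v k ^ 2) ^ (∑ i, ν i) := by
    rw [Real.rpow_sum_of_nonneg ht fun i _ => hν i]
    refine Finset.prod_le_prod (fun i _ => Real.rpow_nonneg (abs_nonneg _) _) fun i _ => ?_
    have h1 : |∑ k, U i k * v k| ^ (2 * ν i) = ((∑ k, U i k * v k) ^ 2) ^ (ν i) := by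
      rw [Real.rpow_mul (abs_nonneg _)]
      congr 1
      rw [← sq_abs (∑ k, U i k * v k)]
      exact_mod_cast Real.rpow_natCast _ 2
    rw [h1]
    refine Real.rpow_le_rpow (sq_nonneg _) ?_ (hν i)
    have h2 := Finset.sum_mul_sq_le_sq_mul_sq Finset.univ (U i) v
    rw [hU i, one_mul] at h2
    exact h2
  exact (mul_le_mul_of_nonneg_right hprod (Real.exp_pos _).le).trans
    (rpow_exp_le n (Finset.sum_nonneg fun i _ => hν i) hn ht hc)

end Pool.Agent.P8H26.GP
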