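import Pool.Agent.P8H64.GP.Stm2

/-!
# Project GP, package UNI: numbers
-/

set_option autoImplicit false

namespace Pool.Agent.P8H26.GP

open Pool.Agent.P8H64.GP

lemma key_log {x : ℝ} (hx : 0 < x) :
    Real.log (1 + x / 8) + 1 ≤ (1 + 1 / x) * Real.log (1 + x) := by
  obtain ⟨L, hL⟩ : ∃ L : ℝ, L = Real.log (1 + x) := ⟨_, rfl⟩
  have hL0 : 0 ≤ L := by rw [hL]; exact Real.log_nonneg (by linarith)
  have h1x : 0 < 1 + x := by linarith
  have h8 : 0 < 1 + x / 8 := by positivity
  rw [← hL]
  rcases le_total x 6 with h | h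
  · have h1 : 2 * x / (x + 2) ≤ L := by
      rw [hL]
      exact Real.le_log_one_add_of_nonneg hx.le
    have h2 : 2 / (x + 2) ≤ 1 / x * L := by
      have h3 := mul_le_mul_of_nonneg_left h1 (one_div_nonneg.2 hx.le)
      refine le_trans (le_of_eq ?_) h3
      field_simp
    have h3 : Real.log (1 + x / 8) = L + Real.log ((1 + x / 8) / (1 + x)) := by
      rw [Real.log_div h8.ne' h1x.ne', hL]
      ring
    have h4 : Real.log ((1 + x / 8) / (1 + x)) ≤ (1 + x / 8) / (1 + x) - 1 :=
      Real.log_le_sub_one_of_pos (by positivity)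
    have h5 : (1 + x / 8) / (1 + x) ≤ 2 / (x + 2) := by
      rw [div_le_div_iff₀ h1x (by linarith)]
      nlinarith
    rw [h3]
    linarith
  · have he := Real.exp_one_lt_d9
    have h1 : Real.log (1 + x / 8) + 1 = Real.log ((1 + x / 8) * Real.exp 1) := by
      rw [Real.log_mul h8.ne' (Real.exp_pos 1).ne', Real.log_exp]
    have h2 : (1 + x / 8) * Real.exp 1 ≤ 1 + x := by
      have h3 : (1 + x / 8) * Real.exp 1 ≤ (1 + x / 8) * 2.7182818286 :=
        mul_le_mul_of_nonneg_left he.le h8.le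
      linarith
    have h3 : Real.log ((1 + x / 8) * Real.exp 1) ≤ L := by
      rw [hL]
      exact Real.log_le_log (by positivity) h2
    have h4 : 0 ≤ 1 / x * L := by positivity
    rw [h1]
    linarith

theorem uni : S_UNI := by
  intro m A hA
  refine ⟨4 * A, by linarith, fun τ r s hτ hr hs => ?_⟩
  have hr0 : (0 : ℝ) < r := by exact_mod_cast hr
  have hs0 : 0 < s := lt_of_lt_of_le (by positivity) hs
  obtain ⟨x, hx⟩ : ∃ x : ℝ, x = 2 * s / r := ⟨_, rfl⟩
  have hx0 : 0 < x := by rw [hx]; positivity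
  have hrx : (r : ℝ) * x = 2 * s := by
    rw [hx]
    field_simp
  have hAx : A * τ ≤ x / 8 := by
    rw [hx, div_div, le_div_iff₀ (by positivity)]
    linarith
  have hlog : Real.log (1 + A * τ) ≤ Real.log (1 + x / 8) :=
    Real.log_le_log (by positivity) (by linarith)
  have hkey := key_log hx0
  refine ⟨√(1 + x), ?_, ?_⟩
  · rw [Real.lt_sqrt (by norm_num)]
    linarith
  · rw [Real.log_sqrt (by linarith), Real.sq_sqrt (by linarith)]
    obtain ⟨L, hL⟩ : ∃ L : ℝ, L = Real.log (1 + x) := ⟨_, rfl⟩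
    rw [← hL] at hkey ⊢
    have h1 : s * (1 / x) = r / 2 := by
      field_simp
      linarith
    have h2 : s * (Real.log (1 + A * τ) + 1) ≤ s * ((1 + 1 / x) * L) :=
      mul_le_mul_of_nonneg_left (by linarith) hs0.le
    have h3 : s * ((1 + 1 / x) * L) = s * L + r / 2 * L := by
      rw [← h1]
      ring
    rw [h3] at h2
    have h4 : (1 + x - 1) / 2 * (r : ℝ) = s := by
      linarith
    rw [h4]
    linarith

end Pool.Agent.P8H26.GP
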